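import Pool.Agent.helper60.XP.SpecD

/-!
# Module DEX of project xp: (MP_af9036_an)

Existence of the scales.
-/

set_option autoImplicit false

open Complex Metric Set Filter Topology MeasureTheory

noncomputable section

namespace XPD

theorem DEX (hSCL : SCL_stmt) (hDIT : DIT_stmt) : DEX_stmt := by
  intro n k _ f b μ e L h i
  obtain ⟨_, hfix, _, _, _, hder, _, hpoly⟩ := hDIT k f b h.cyc
  obtain ⟨Q₀, hdeg, hQ₀⟩ := hpoly k
  set Q : Polynomial ℂ := Q₀.comp (Polynomial.X + Polynomial.C (b i)) -
    (Polynomial.C (b i) + Polynomial.C μ * Polynomial.X) with hQ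
  have hev : ∀ x : ℂ, Q.eval x = itf f k (b i + x) - b i - μ * x := by
    intro x
    rw [hQ, Polynomial.eval_sub, Polynomial.eval_comp, hQ₀ (b i + x)]
    simp only [Polynomial.eval_add, Polynomial.eval_X, Polynomial.eval_C, Polynomial.eval_mul]
    rw [add_comm x (b i)]
    ring
  have h0 : Q.eval 0 = 0 := by
    rw [hev 0, add_zero, hfix i]
    ring
  have hder0 : Q.derivative.eval 0 = PPS.rho f b - μ := by
    have h1 : Q₀.derivative.eval (b i) = PPS.rho f b := by
      rw [← hder i, ← Polynomial.deriv]
      congr 1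
      funext z
      exact (hQ₀ z).symm
    rw [hQ, Polynomial.derivative_sub, Polynomial.derivative_comp, Polynomial.eval_sub]
    simp only [Polynomial.derivative_add, Polynomial.derivative_X, Polynomial.derivative_C,
      Polynomial.eval_add, Polynomial.eval_comp, Polynomial.eval_X,
      Polynomial.eval_C, Polynomial.derivative_mul,
      zero_add, zero_mul, add_zero, one_mul, mul_one]
    rw [h1]
  have hd : ‖Q.derivative.eval 0‖ < e := by
    rw [hder0]
    have h1 := h.rm
    have h2 := h.e0
    linarith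
  have hdegQ : 2 ≤ Q.natDegree := by
    have h1 : (Q₀.comp (Polynomial.X + Polynomial.C (b i))).natDegree = n ^ k := by
      rw [Polynomial.natDegree_comp, Polynomial.natDegree_X_add_C, mul_one, hdeg, h.hdeg]
    have h4 : 4 ≤ n ^ k := by
      calc 4 = 2 ^ 2 := by norm_num
        _ ≤ n ^ 2 := Nat.pow_le_pow_left h.hn 2
        _ ≤ n ^ k := Nat.pow_le_pow_right (by have := h.hn; omega) h.hk
    have h2 : (Polynomial.C (b i) + Polynomial.C μ * Polynomial.X).natDegree ≤ 1 := by
      refine (Polynomial.natDegree_add_le _ _).trans (max_le ?_ ?_)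
      · simp
      · exact (Polynomial.natDegree_C_mul_le μ Polynomial.X).trans Polynomial.natDegree_X_le
    have h3 : Q.natDegree = n ^ k := by
      rw [hQ, Polynomial.natDegree_sub_eq_left_of_natDegree_lt, h1]
      rw [h1]
      omega
    omega
  obtain ⟨R, hR, hnear, x, hx, hfar⟩ := hSCL Q e h.e0 h0 hd hdegQ
  refine ⟨R, ⟨hR, ?_, x, hx, ?_⟩⟩
  · intro y hy
    rw [← hev y]
    exact hnear y hy
  · rw [← hev x]
    exact hfar

end XPD
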